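import Pool.Agent.H65.HX.SStm

/-!
# Project HX, part sTOT: the total demand of a row, and the demand below the row
-/

set_option autoImplicit false
open Classical Finset

namespace Pool.Agent.H68.HX

open Pool.Agent.H39.HW (sm Av ln blk lab)
open Pool.Agent.H65.HX Pool.Agent.H65.HX.Sc

/-! ### numbers -/

theorem Lpos {x : Prm} (hx : Par x) : 1 ≤ x.L := by
  have h1 := hx.h1
  have h2 := hx.L1
  have : 1 ≤ x.h := by omega
  rw [h2]
  nlinarith

theorem n0mu_le {x : Prm} (hx : Par x) : x.n0 * x.μ ≤ 1 / 10 ^ 12 := by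
  have h1 : (1 : ℝ) ≤ x.L := by exact_mod_cast Lpos hx
  have h2 : (1 : ℝ) ≤ x.h := by
    have := hx.h1
    have h3 : 1 ≤ x.h := by omega
    exact_mod_cast h3
  have h3 := hx.V1
  have h4 := hx.m0
  have h5 : (0 : ℝ) ≤ x.n0 * x.μ := by positivity
  have h6 : (1 : ℝ) ≤ (x.L : ℝ) * x.h := by nlinarith
  have h7 : 10 ^ 12 * (x.n0 * x.μ) ≤ 10 ^ 12 * (x.L : ℝ) * x.h * (x.n0 * x.μ) := by
    have : 10 ^ 12 * (x.L : ℝ) * x.h * (x.n0 * x.μ) = ((x.L : ℝ) * x.h) * (10 ^ 12 * (x.n0 * x.μ)) := by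
      ring
    rw [this]
    have h8 : 0 ≤ 10 ^ 12 * (x.n0 * x.μ) := by positivity
    nlinarith
  linarith

theorem eta_le {x : Prm} (hx : Par x) : x.η ≤ 1 / 10 ^ 18 := by
  have h1 := n0mu_le hx
  have h2 := hx.V2
  linarith

theorem th_le {x : Prm} (hx : Par x) : x.θ ≤ 1 / 10 ^ 18 := hx.th.trans (eta_le hx)

theorem Dpos {x : Prm} (hx : Par x) : (0 : ℝ) < x.D := by
  have := hx.D1
  exact_mod_cast this

theorem v_le {x : Prm} (hx : Par x) : (x.v : ℝ) / x.D ≤ 101 / 100 * x.μ := by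
  have h1 := (abs_le.mp hx.s3).2
  have h2 := eta_le hx
  have h3 := th_le hx
  have h4 := hx.t0
  have h5 := hx.m0
  have h6 := hx.n1
  have h7 : x.η * x.θ * x.μ ≤ 1 / 1000 * x.μ := by
    have : x.η * x.θ ≤ 1 / 1000 := by nlinarith
    nlinarith
  have h8 : x.θ * x.μ ≤ 1 / 1000 * x.μ := by nlinarith
  nlinarith

theorem M_le {x : Prm} (hx : Par x) : (x.M : ℝ) ≤ 1 / 10 ^ 4 * (x.μ * x.D) := by
  have h := hx.D2
  have h2 := eta_le hx
  have h3 := th_le hx
  have h4 := hx.t0
  have h5 := hx.m0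
  have h6 := hx.n1
  have hD := Dpos hx
  have hηθ : x.η * x.θ ≤ 1 / 10 ^ 5 := by nlinarith
  have hμD : 0 < x.μ * x.D := by positivity
  have h7 : x.η * x.θ * x.μ * x.D ≤ 1 / 10 ^ 5 * (x.μ * x.D) := by nlinarith
  have hMB : (x.M : ℝ) ≤ x.B := by
    have : x.M ≤ x.B := by simp only [Prm.B]; omega
    exact_mod_cast this
  have : (0 : ℝ) ≤ x.B := by positivity
  nlinarith

/-- the length of a block is at most `2 μ D` -/
theorem ln_le (hB : S_BLK) (x : Prm) (hx : Par x) {β : ℕ} (hβ : β < x.B) :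
    (ln x.st β : ℝ) ≤ 2 * x.μ * x.D := by
  obtain ⟨_, _, _, _, _, _, _, _, _, _, h⟩ := hB x hx
  have h1 := (h β hβ).2
  have h2 : (ln x.st β : ℝ) ≤ x.v + x.M := by exact_mod_cast h1
  have h3 := v_le hx
  rw [div_le_iff₀ (Dpos hx)] at h3
  have h4 := M_le hx
  have h5 := hx.m0
  have h6 := Dpos hx
  have : 0 < x.μ * x.D := by positivity
  nlinarith

theorem two_le_muD {x : Prm} (hx : Par x) : (2 : ℝ) ≤ x.μ * x.D := by
  have h := hx.D2
  have h2 := eta_le hx
  have h3 := th_le hx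
  have h4 := hx.t0
  have h5 := hx.m0
  have h6 := hx.n1
  have hD := Dpos hx
  have hηθ : x.η * x.θ ≤ 1 := by nlinarith
  have hμD : 0 < x.μ * x.D := by positivity
  have h7 : x.η * x.θ * x.μ * x.D ≤ 1 * (x.μ * x.D) := by nlinarith
  have : (0 : ℝ) ≤ x.B := by positivity
  nlinarith

/-! ### sums over blocks -/

/-- telescoping -/
theorem sum_ln_range {st : ℕ → ℕ} (hm : Monotone st) (h0 : st 0 = 0) (n : ℕ) :
    ∑ β ∈ range n, ln st β = st n := by
  have h := Finset.sum_range_tsub hm n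
  rw [h0, Nat.sub_zero] at h
  exact h

theorem card_lab {st : ℕ → ℕ} (hm : Monotone st) (T : Finset ℕ) :
    (lab st T).card = ∑ β ∈ T, ln st β := by
  unfold lab
  rw [Finset.card_biUnion]
  · refine Finset.sum_congr rfl fun β _ => ?_
    unfold blk ln
    rw [Nat.card_Ico]
  · intro β _ γ _ hne
    change Disjoint (blk st β) (blk st γ)
    rw [Finset.disjoint_left]
    intro n h1 h2
    unfold blk at h1 h2
    rw [Finset.mem_Ico] at h1 h2
    rcases lt_or_gt_of_ne hne with h | h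
    · have := hm (show β + 1 ≤ γ by omega)
      omega
    · have := hm (show γ + 1 ≤ β by omega)
      omega

/-- the numbers of labels at distance at least `p` from the block `a`, and of those below `a` -/
theorem sum_av {st : ℕ → ℕ} (hm : Monotone st) (h0 : st 0 = 0) {p a B K : ℕ} (hp : 2 ≤ p)
    (hKB : ∀ i, i + K ≤ B → st i + p ≤ st (i + K)) (ha0 : K ≤ a) (ha1 : a + K + 1 ≤ B) :
    ∃ i < B, ∃ j < B, (∑ β ∈ (range B).filter (fun β => Av st p a β), ln st β) + ln st a
      ≤ st B - 2 * p + 2 ∧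
      st B + 3 ≤ (∑ β ∈ (range B).filter (fun β => Av st p a β), ln st β) + ln st a
        + ln st i + ln st j + 2 * p ∧
      (∑ β ∈ (range B).filter (fun β => Av st p a β ∧ β < a), ln st β) + p ≤ st a + 1 ∧
      st a + 1 ≤ (∑ β ∈ (range B).filter (fun β => Av st p a β ∧ β < a), ln st β) + ln st i + p := by
  have hsplit : (range B).filter (fun β => Av st p a β) =
      (range B).filter (fun β => st (β + 1) + p ≤ st a + 1) ∪
      (range B).filter (fun β => st (a + 1) + p ≤ st β + 1) := by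
    ext β
    simp only [Finset.mem_filter, Finset.mem_union]
    unfold Av
    tauto
  have hlast : st (a + 1) ≥ st a := hm (show a ≤ a + 1 by omega)
  have hdis : Disjoint ((range B).filter (fun β => st (β + 1) + p ≤ st a + 1))
      ((range B).filter (fun β => st (a + 1) + p ≤ st β + 1)) := by
    rw [Finset.disjoint_left]
    intro β h1 h2
    have h1' := (Finset.mem_filter.mp h1).2
    have h2' := (Finset.mem_filter.mp h2).2
    have := hm (show β ≤ β + 1 by omega)
    omega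
  -- below
  have hex1 : ∃ i, ¬ (st (i + 1) + p ≤ st a + 1) := ⟨a, by omega⟩
  let i := Nat.find hex1
  have hi : ¬ (st (i + 1) + p ≤ st a + 1) := Nat.find_spec hex1
  have hia : i ≤ a := Nat.find_min' hex1 (by omega)
  have hS1 : (range B).filter (fun β => st (β + 1) + p ≤ st a + 1) = range i := by
    ext β
    simp only [Finset.mem_filter, Finset.mem_range]
    constructor
    · rintro ⟨_, h⟩
      by_contra hc
      have := hm (show i + 1 ≤ β + 1 by omega)
      omega
    · intro h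
      refine ⟨by omega, ?_⟩
      have := Nat.find_min hex1 h
      omega
  have hS3 : (range B).filter (fun β => Av st p a β ∧ β < a) = range i := by
    rw [← hS1]
    ext β
    simp only [Finset.mem_filter, Finset.mem_range]
    unfold Av
    constructor
    · rintro ⟨h1, h2 | h2, h3⟩
      · have := hm (show β ≤ a + 1 by omega)
        omega
      · exact ⟨h1, h2⟩
    · rintro ⟨h1, h2⟩
      refine ⟨h1, Or.inr h2, ?_⟩
      by_contra hc
      have := hm (show a ≤ β + 1 by omega)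
      omega
  have hi2 : st i + p ≤ st a + 1 := by
    rcases Nat.eq_zero_or_pos i with h | h
    · rw [h, h0]
      have h1 := hKB 0 (by omega)
      simp only [h0, Nat.zero_add] at h1
      have h2 := hm ha0
      omega
    · have := Nat.find_min hex1 (show i - 1 < i by omega)
      have e : i - 1 + 1 = i := by omega
      rw [e] at this
      omega
  -- above
  have hexB : st (a + 1) + p ≤ st B + 1 := by
    have h1 := hKB (a + 1) (by omega)
    have h2 := hm (show a + 1 + K ≤ B by omega)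
    omega
  have hex2 : ∃ j, st (a + 1) + p ≤ st j + 1 := ⟨B, hexB⟩
  let j := Nat.find hex2
  have hj : st (a + 1) + p ≤ st j + 1 := Nat.find_spec hex2
  have hjB : j ≤ B := Nat.find_min' hex2 hexB
  have hS2 : (range B).filter (fun β => st (a + 1) + p ≤ st β + 1) = Finset.Ico j B := by
    ext β
    simp only [Finset.mem_filter, Finset.mem_range, Finset.mem_Ico]
    constructor
    · rintro ⟨h1, h⟩
      exact ⟨Nat.find_min' hex2 h, h1⟩
    · rintro ⟨h1, h2⟩
      refine ⟨h2, ?_⟩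
      have := hm h1
      omega
  have hj0 : 1 ≤ j := by
    by_contra hc
    have : j = 0 := by omega
    rw [this, h0] at hj
    omega
  have hj2 : st (j - 1) + 1 < st (a + 1) + p := by
    have := Nat.find_min hex2 (show j - 1 < j by omega)
    omega
  have hsumj : st j + ∑ β ∈ Finset.Ico j B, ln st β = st B := by
    have h1 := Finset.sum_range_add_sum_Ico (fun β => ln st β) hjB
    rw [sum_ln_range hm h0, sum_ln_range hm h0] at h1
    exact h1
  refine ⟨i, by omega, j - 1, by omega, ?_, ?_, ?_, ?_⟩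
  · rw [hsplit, Finset.sum_union hdis, hS1, hS2, sum_ln_range hm h0]
    have : ln st a = st (a + 1) - st a := rfl
    omega
  · rw [hsplit, Finset.sum_union hdis, hS1, hS2, sum_ln_range hm h0]
    have e1 : ln st a = st (a + 1) - st a := rfl
    have e2 : ln st i = st (i + 1) - st i := rfl
    have e3 : ln st (j - 1) = st j - st (j - 1) := by
      unfold ln
      have e : j - 1 + 1 = j := by omega
      rw [e]
    have := hm (show i ≤ i + 1 by omega)
    have := hm (show j - 1 ≤ j by omega)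
    omega
  · rw [hS3, sum_ln_range hm h0]
    exact hi2
  · rw [hS3, sum_ln_range hm h0]
    have e2 : ln st i = st (i + 1) - st i := rfl
    have := hm (show i ≤ i + 1 by omega)
    omega

/-- the sum of the demands of a set of classes -/
theorem sum_dem (x : Prm) (a : ℕ) (T : Finset ℕ) :
    ∑ β ∈ T, x.dem a β =
      (∑ β ∈ T, (ln x.st β : ℝ)) / x.D - (((T ∩ x.mm a).card : ℕ) : ℝ) * x.μ := by
  have : ∀ β ∈ T, x.dem a β =
      (ln x.st β : ℝ) / x.D - (if β ∈ x.mm a then x.μ else 0) := fun β _ => rfl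
  rw [Finset.sum_congr rfl this, Finset.sum_sub_distrib, Finset.sum_div, Finset.sum_ite_mem,
    Finset.sum_const, nsmul_eq_mul]

theorem t_TOT (hBLK : S_BLK) (hMMD : S_MMD) (hCLD : S_CLD) (hWIN : S_WIN) : S_TOT := by
  intro x hx a ha
  obtain ⟨hst0, hstB, hstm, hKB0, _⟩ := hBLK x hx
  have hmono : Monotone x.st := monotone_nat_of_le_succ hstm
  have hKB : ∀ i, i + x.K ≤ x.B → x.st i + x.p ≤ x.st (i + x.K) :=
    fun i hi => hKB0 i x.K (by omega) hi
  obtain ⟨hRc, hMM⟩ := hMMD x hx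
  obtain ⟨hmmd, hmmc, hsB, hsadj⟩ := hMM a ha
  obtain ⟨_, hmmsub, _, _, _⟩ := hCLD x hx a ha
  have hwin := hWIN x hx a ha
  obtain ⟨hR1, hR2⟩ := Finset.mem_Icc.mp ha
  have hJ := hx.J1
  have hp2 : 2 ≤ x.p := by have := hx.g3; omega
  have hB : x.B = x.b1 + (x.K + x.J) := by simp only [Prm.B, Prm.b1]; omega
  obtain ⟨i, hi, j, hj, hup, hlow, hupL, hlowL⟩ :=
    sum_av hmono hst0 hp2 hKB (show x.K ≤ a by omega) (show a + x.K + 1 ≤ x.B by omega)
  set A := (range x.B).filter (fun β => Av x.st x.p a β) with hA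
  set E := A.erase (sm x.B a a) with hE
  set U := (range (2 * x.h)).biUnion fun P => x.S P a with hU
  have hclsE : x.cls a = E \ U := rfl
  have hUmem : ∀ P, ∀ β ∈ x.S P a, β < x.B ∧ Av x.st x.p a β ∧ β ≠ sm x.B a a ∧
      (x.tp P = true → a < β) ∧ (x.tp P = false → β < a) := by
    intro P β hβP
    obtain ⟨hβm, hβw, _⟩ := Finset.mem_filter.mp hβP
    obtain ⟨h1, h2, h3, h4, h5⟩ := (hwin (x.tp P)).1 β hβw
    refine ⟨h1, h2, ?_, fun h => (h4 h).1, fun h => (h5 h).1⟩
    intro h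
    exact hsadj (h ▸ h3)
  have hUE : U ⊆ E := by
    intro β hβ
    obtain ⟨P, _, hβP⟩ := Finset.mem_biUnion.mp hβ
    obtain ⟨h1, h2, h3, _⟩ := hUmem P β hβP
    exact Finset.mem_erase.mpr ⟨h3, Finset.mem_filter.mpr ⟨Finset.mem_range.mpr h1, h2⟩⟩
  have hdisj : ∀ P Q, P ≠ Q → Disjoint (x.S P a) (x.S Q a) := by
    intro P Q hPQ
    rw [Finset.disjoint_left]
    intro β h5 h6
    have h5' := (Finset.mem_filter.mp h5).2.2
    have h6' := (Finset.mem_filter.mp h6).2.2
    apply hPQ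
    omega
  -- the reserved labels
  have hD : (1 : ℝ) ≤ x.D := by exact_mod_cast hx.D1
  have hD0 : (0 : ℝ) < x.D := by linarith
  have hsr : ∀ τ : Bool, ((∑ β ∈ ((range (2 * x.h)).filter (fun P => x.tp P = τ)).biUnion
      (fun P => x.S P a), ln x.st β : ℕ) : ℝ) = x.sr τ a * x.D := by
    intro τ
    rw [Finset.sum_biUnion (fun P _ Q _ h => hdisj P Q h)]
    unfold Prm.sr
    rw [Finset.sum_mul, Nat.cast_sum]
    refine Finset.sum_congr rfl fun P _ => ?_
    rw [card_lab hmono, div_mul_cancel₀ _ hD0.ne']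
  set UT := ((range (2 * x.h)).filter (fun P => x.tp P = true)).biUnion (fun P => x.S P a) with hUT
  set UF := ((range (2 * x.h)).filter (fun P => x.tp P = false)).biUnion (fun P => x.S P a) with hUF
  have hUU : U = UT ∪ UF := by
    ext β
    simp only [hU, hUT, hUF, Finset.mem_biUnion, Finset.mem_union, Finset.mem_filter]
    constructor
    · rintro ⟨P, h1, h2⟩
      cases h3 : x.tp P
      · exact Or.inr ⟨P, ⟨h1, h3⟩, h2⟩
      · exact Or.inl ⟨P, ⟨h1, h3⟩, h2⟩
    · rintro (⟨P, ⟨h1, _⟩, h2⟩ | ⟨P, ⟨h1, _⟩, h2⟩)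
      · exact ⟨P, h1, h2⟩
      · exact ⟨P, h1, h2⟩
  have hUTm : ∀ β ∈ UT, a < β := by
    intro β hβ
    obtain ⟨P, hP, hβP⟩ := Finset.mem_biUnion.mp hβ
    exact (hUmem P β hβP).2.2.2.1 (Finset.mem_filter.mp hP).2
  have hUFm : ∀ β ∈ UF, β < a := by
    intro β hβ
    obtain ⟨P, hP, hβP⟩ := Finset.mem_biUnion.mp hβ
    exact (hUmem P β hβP).2.2.2.2 (Finset.mem_filter.mp hP).2
  have hTF : Disjoint UT UF := by
    rw [Finset.disjoint_left]
    intro β h1 h2
    have := hUTm β h1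
    have := hUFm β h2
    omega
  have hUsum : ((∑ β ∈ U, ln x.st β : ℕ) : ℝ) = x.sr true a * x.D + x.sr false a * x.D := by
    rw [hUU, Finset.sum_union hTF, Nat.cast_add, hsr true, hsr false]
  have hclssum : ∑ β ∈ x.cls a, ln x.st β + ∑ β ∈ U, ln x.st β = ∑ β ∈ E, ln x.st β := by
    rw [hclsE]
    exact Finset.sum_sdiff hUE
  have hE1 : ∑ β ∈ E, ln x.st β ≤ ∑ β ∈ A, ln x.st β :=
    Finset.sum_le_sum_of_subset (Finset.erase_subset _ _)
  have hE2 : ∑ β ∈ A, ln x.st β ≤ ∑ β ∈ E, ln x.st β + ln x.st (sm x.B a a) := by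
    by_cases h : sm x.B a a ∈ A
    · exact (Finset.sum_erase_add A (fun β => ln x.st β) h).ge
    · rw [hE, Finset.erase_eq_of_notMem h]
      omega
  have hμ := hx.m0
  have hRr : (x.R.card : ℝ) = x.M + 2 * x.J - 1 := by
    rw [hRc, Nat.cast_sub (by omega)]
    push_cast
    ring
  have hmmr : ((x.mm a).card : ℝ) = x.R.card - 1 := by
    have : ((x.mm a).card : ℝ) + 1 = x.R.card := by exact_mod_cast hmmc
    linarith
  have hθ : x.θ = 1 - (x.R.card : ℝ) * x.μ := by
    rw [hRr]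
    rfl
  have hl := fun {β : ℕ} (hβ : β < x.B) => ln_le hBLK x hx hβ
  have l1 := hl hi
  have l2 := hl hj
  have l3 := hl (show a < x.B by omega)
  have l4 := hl hsB
  have h2D := two_le_muD hx
  constructor
  · -- the whole row
    have hDt : x.Dt a = (∑ β ∈ x.cls a, (ln x.st β : ℝ)) / x.D - ((x.mm a).card : ℝ) * x.μ := by
      unfold Prm.Dt
      rw [sum_dem, Finset.inter_eq_right.mpr hmmsub]
    have hup' : (∑ β ∈ A, (ln x.st β : ℝ)) + ln x.st a ≤ x.D + 2 := by
      have h5 : (∑ β ∈ A, ln x.st β) + ln x.st a ≤ x.D + 2 := by omega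
      exact_mod_cast h5
    have hlow' : (x.D : ℝ) + 3 ≤ (∑ β ∈ A, (ln x.st β : ℝ)) + ln x.st a + ln x.st i
        + ln x.st j := by
      have h5 : x.D + 3 ≤ (∑ β ∈ A, ln x.st β) + ln x.st a + ln x.st i + ln x.st j := by omega
      exact_mod_cast h5
    have hE1' : ∑ β ∈ E, (ln x.st β : ℝ) ≤ ∑ β ∈ A, (ln x.st β : ℝ) := by exact_mod_cast hE1
    have hE2' : ∑ β ∈ A, (ln x.st β : ℝ) ≤ ∑ β ∈ E, (ln x.st β : ℝ) + ln x.st (sm x.B a a) := by
      exact_mod_cast hE2
    have hc' : ∑ β ∈ x.cls a, (ln x.st β : ℝ) + (x.sr true a * x.D + x.sr false a * x.D) =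
        ∑ β ∈ E, (ln x.st β : ℝ) := by
      rw [← hUsum]
      exact_mod_cast hclssum
    have hla : (0 : ℝ) ≤ ln x.st a := by positivity
    have key : x.Dt a - (x.θ - x.sr true a - x.sr false a) =
        (∑ β ∈ E, (ln x.st β : ℝ) - x.D) / x.D + x.μ := by
      rw [hDt, hmmr, hθ, ← hc']
      field_simp
      ring
    rw [key, abs_le]
    have b1 : (∑ β ∈ E, (ln x.st β : ℝ) - x.D) / x.D ≤ x.μ := by
      rw [div_le_iff₀ hD0]
      linarith
    have b2 : - (8 * x.μ) ≤ (∑ β ∈ E, (ln x.st β : ℝ) - x.D) / x.D := by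
      rw [le_div_iff₀ hD0]
      linarith
    constructor <;> linarith
  · -- below the row
    set AL := (range x.B).filter (fun β => Av x.st x.p a β ∧ β < a) with hAL
    set EL := AL.erase (sm x.B a a) with hEL
    have hclsL : (x.cls a).filter (fun β => β < a) = EL \ UF := by
      rw [hclsE]
      ext β
      simp only [Finset.mem_filter, Finset.mem_sdiff, hE, hEL, hA, hAL, Finset.mem_erase, hUU,
        Finset.mem_union, Finset.mem_range]
      constructor
      · rintro ⟨⟨⟨h1, h2, h3⟩, h4⟩, h5⟩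
        exact ⟨⟨h1, h2, h3, h5⟩, fun h => h4 (Or.inr h)⟩
      · rintro ⟨⟨h1, h2, h3, h5⟩, h4⟩
        refine ⟨⟨⟨h1, h2, h3⟩, ?_⟩, h5⟩
        rintro (h | h)
        · have := hUTm β h
          omega
        · exact h4 h
    have hUFE : UF ⊆ EL := by
      intro β hβ
      have h1 := hUFm β hβ
      have h2 : β ∈ E := hUE (by rw [hUU]; exact Finset.mem_union_right _ hβ)
      obtain ⟨h3, h4⟩ := Finset.mem_erase.mp h2
      obtain ⟨h5, h6⟩ := Finset.mem_filter.mp h4
      exact Finset.mem_erase.mpr ⟨h3, Finset.mem_filter.mpr ⟨h5, h6, h1⟩⟩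
    have hsumL : ∑ β ∈ (x.cls a).filter (fun β => β < a), ln x.st β + ∑ β ∈ UF, ln x.st β =
        ∑ β ∈ EL, ln x.st β := by
      rw [hclsL]
      exact Finset.sum_sdiff hUFE
    have hEL1 : ∑ β ∈ EL, ln x.st β ≤ ∑ β ∈ AL, ln x.st β :=
      Finset.sum_le_sum_of_subset (Finset.erase_subset _ _)
    have hEL2 : ∑ β ∈ AL, ln x.st β ≤ ∑ β ∈ EL, ln x.st β + ln x.st (sm x.B a a) := by
      by_cases h : sm x.B a a ∈ AL
      · exact (Finset.sum_erase_add AL (fun β => ln x.st β) h).ge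
      · rw [hEL, Finset.erase_eq_of_notMem h]
        omega
    -- the number of blocks of `mm a` below `a`
    have hmmL : (x.cls a).filter (fun β => β < a) ∩ x.mm a =
        (range (a - x.K)).erase (sm x.B a a) := by
      ext β
      simp only [Finset.mem_inter, Finset.mem_filter, Finset.mem_erase, Finset.mem_range]
      constructor
      · rintro ⟨⟨_, h1⟩, h2⟩
        obtain ⟨h3, h4, h5⟩ := (hmmd β).mp h2
        refine ⟨h5, ?_⟩
        by_contra hc
        exact h4 ⟨by omega, by omega⟩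
      · rintro ⟨h1, h2⟩
        have h3 : β ∈ x.mm a := (hmmd β).mpr ⟨by omega, fun h => by have := h.2; omega, h1⟩
        exact ⟨⟨hmmsub h3, by omega⟩, h3⟩
    have hcard1 : (((range (a - x.K)).erase (sm x.B a a)).card : ℝ) ≤ (a : ℝ) - x.K := by
      have h1 := Finset.card_le_card (Finset.erase_subset (sm x.B a a) (range (a - x.K)))
      rw [Finset.card_range] at h1
      have h2 : (((range (a - x.K)).erase (sm x.B a a)).card : ℝ) ≤ ((a - x.K : ℕ) : ℝ) := by
        exact_mod_cast h1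
      rwa [Nat.cast_sub (by omega)] at h2
    have hcard2 : (a : ℝ) - x.K - 1 ≤ (((range (a - x.K)).erase (sm x.B a a)).card : ℝ) := by
      have h1 := Finset.pred_card_le_card_erase (s := range (a - x.K)) (a := sm x.B a a)
      rw [Finset.card_range] at h1
      have h2 : a ≤ ((range (a - x.K)).erase (sm x.B a a)).card + x.K + 1 := by omega
      have h3 : (a : ℝ) ≤ (((range (a - x.K)).erase (sm x.B a a)).card : ℝ) + x.K + 1 := by
        exact_mod_cast h2
      linarith
    have hDL : x.DL a = (∑ β ∈ (x.cls a).filter (fun β => β < a), (ln x.st β : ℝ)) / x.D -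
        (((range (a - x.K)).erase (sm x.B a a)).card : ℝ) * x.μ := by
      unfold Prm.DL
      rw [sum_dem, hmmL]
    have hupL' : (∑ β ∈ AL, (ln x.st β : ℝ)) + x.p ≤ x.st a + 1 := by exact_mod_cast hupL
    have hlowL' : (x.st a : ℝ) + 1 ≤ (∑ β ∈ AL, (ln x.st β : ℝ)) + ln x.st i + x.p := by
      exact_mod_cast hlowL
    have hEL1' : ∑ β ∈ EL, (ln x.st β : ℝ) ≤ ∑ β ∈ AL, (ln x.st β : ℝ) := by exact_mod_cast hEL1
    have hEL2' : ∑ β ∈ AL, (ln x.st β : ℝ) ≤
        ∑ β ∈ EL, (ln x.st β : ℝ) + ln x.st (sm x.B a a) := by exact_mod_cast hEL2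
    have hc' : ∑ β ∈ (x.cls a).filter (fun β => β < a), (ln x.st β : ℝ) + x.sr false a * x.D =
        ∑ β ∈ EL, (ln x.st β : ℝ) := by
      rw [← hsr false]
      exact_mod_cast hsumL
    have key : x.DL a - (((x.st a : ℝ) - x.p) / x.D - ((a : ℝ) - x.K) * x.μ - x.sr false a) =
        (∑ β ∈ EL, (ln x.st β : ℝ) - (x.st a - x.p)) / x.D +
          ((a : ℝ) - x.K - (((range (a - x.K)).erase (sm x.B a a)).card : ℝ)) * x.μ := by
      rw [hDL, ← hc']
      field_simp
      ring
    rw [key, abs_le]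
    have b1 : (∑ β ∈ EL, (ln x.st β : ℝ) - (x.st a - x.p)) / x.D ≤ x.μ := by
      rw [div_le_iff₀ hD0]
      linarith
    have b2 : - (8 * x.μ) ≤ (∑ β ∈ EL, (ln x.st β : ℝ) - (x.st a - x.p)) / x.D := by
      rw [le_div_iff₀ hD0]
      linarith
    have b3 : 0 ≤ ((a : ℝ) - x.K - (((range (a - x.K)).erase (sm x.B a a)).card : ℝ)) * x.μ :=
      mul_nonneg (by linarith) hμ.le
    have b4 : ((a : ℝ) - x.K - (((range (a - x.K)).erase (sm x.B a a)).card : ℝ)) * x.μ ≤ 1 * x.μ :=
      mul_le_mul_of_nonneg_right (by linarith) hμ.le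
    constructor <;> linarith

end Pool.Agent.H68.HX
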