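import Pool.Agent.H68.HX.STot

/-!
# Project HX, part sZON: where the rows and blocks are
-/

set_option autoImplicit false
open Classical Finset

namespace Pool.Agent.H68.HX

open Pool.Agent.H39.HW (sm Av ln blk lab)
open Pool.Agent.H65.HX Pool.Agent.H65.HX.Sc

theorem mu_le_v {x : Prm} (hx : Par x) : x.μ ≤ (x.v : ℝ) / x.D := by
  have h1 := (abs_le.mp hx.s3).1
  have h2 := eta_le hx
  have h4 := hx.t0
  have h5 := hx.m0
  have h6 : 0 < x.θ * x.μ := mul_pos h4 h5
  have h7 : x.η * x.θ * x.μ ≤ 1 / 10 * (x.θ * x.μ) := by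
    rw [mul_assoc]
    exact mul_le_mul_of_nonneg_right (by linarith) h6.le
  nlinarith

theorem mu_le_eta {x : Prm} (hx : Par x) : 100 * x.μ ≤ x.η := by
  have h1 := hx.u1
  have h2 : (1 : ℝ) ≤ x.L := by exact_mod_cast Lpos hx
  have h3 : (1 : ℝ) ≤ (x.L : ℝ) ^ 4 := one_le_pow₀ h2
  have h4 := hx.m0
  have h5 := th_le hx
  have h6 := hx.n1
  have h7 := hx.t0
  have h8 : x.η * x.θ ≤ x.η * 1 := mul_le_mul_of_nonneg_left (by linarith) h6.le
  have h9 : x.μ ≤ (x.L : ℝ) ^ 4 * x.μ := by nlinarith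
  nlinarith

theorem t_ZON (hAVA : S_AVA) : S_ZON := by
  intro x hx
  have hη := hx.n1
  have hη1 := eta_le hx
  have hθ := hx.t0
  have hθη := hx.th
  have hμ := hx.m0
  have hμη := mu_le_eta hx
  obtain ⟨k1, k2⟩ := abs_le.mp hx.k1
  obtain ⟨m1, m2⟩ := abs_le.mp hx.m1
  have j1 := hx.j1
  have hJ0 : 0 ≤ (x.J : ℝ) * x.μ := by positivity
  have hBr : (x.B : ℝ) = 2 * x.K + 2 * x.J + x.M := by
    simp only [Prm.B]; push_cast; ring
  have hb0r : (x.b0 : ℝ) = x.K + x.J := by simp only [Prm.b0]; push_cast; ring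
  have hb1r : (x.b1 : ℝ) = x.K + x.J + x.M := by simp only [Prm.b1]; push_cast; ring
  have e1 : (x.B : ℝ) / 2 * x.μ = x.K * x.μ + x.J * x.μ + x.M * x.μ / 2 := by
    rw [hBr]; ring
  have hgK : (x.g : ℝ) ≤ x.K := by exact_mod_cast hx.g1
  have hg0 : 0 ≤ ((x.K : ℝ) - x.g) * x.μ := mul_nonneg (by linarith) hμ.le
  have hg1 : ((x.K : ℝ) - x.g) * x.μ ≤ 1 / 2 * x.η := by
    have h1 := (abs_le.mp hx.j2).2
    have h2 : ((x.K : ℝ) - x.g) * x.μ ≤ ((x.K : ℝ) - x.g) * ((x.v : ℝ) / x.D) :=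
      mul_le_mul_of_nonneg_left (mu_le_v hx) (by linarith)
    have h3 : x.η * x.θ ≤ 1 / 10 * x.η := by nlinarith
    linarith
  have e2 : (x.g : ℝ) * x.μ = x.K * x.μ - ((x.K : ℝ) - x.g) * x.μ := by ring
  have e3 : (x.b0 : ℝ) * x.μ = x.K * x.μ + x.J * x.μ := by rw [hb0r]; ring
  have e4 : (x.b1 : ℝ) * x.μ = x.K * x.μ + x.J * x.μ + x.M * x.μ := by rw [hb1r]; ring
  have hn0 := n0mu_le hx
  have hV2 := hx.V2
  refine ⟨?_, ?_, ?_, ?_, hn0, ?_⟩
  · rw [abs_le, e1]; constructor <;> linarith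
  · rw [abs_le, e1]; constructor <;> linarith
  · rw [abs_le, e2]; constructor <;> linarith
  · rw [abs_le, e3]; constructor <;> linarith
  · intro a ha
    have lt_of : ∀ m n : ℕ, (m : ℝ) * x.μ < (n : ℝ) * x.μ → m < n := by
      intro m n h
      have := lt_of_mul_lt_mul_right h hμ.le
      exact_mod_cast this
    refine ⟨?_, ?_, ?_⟩
    · intro h
      have h1 : 2 * (a : ℝ) + 2 * x.n0 < x.B := by exact_mod_cast h
      have h2 : (a : ℝ) * x.μ ≤ (x.B : ℝ) / 2 * x.μ - x.n0 * x.μ := by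
        have : (a : ℝ) ≤ (x.B : ℝ) / 2 - x.n0 := by linarith
        calc (a : ℝ) * x.μ ≤ ((x.B : ℝ) / 2 - x.n0) * x.μ := mul_le_mul_of_nonneg_right this hμ.le
          _ = _ := by ring
      rw [e1] at h2
      have h3 : a + x.K + 1 < x.b1 := by
        apply lt_of
        rw [e4]
        push_cast
        have : ((a : ℝ) + x.K + 1) * x.μ = a * x.μ + x.K * x.μ + x.μ := by ring
        rw [this]
        linarith
      have h4 : a < x.b0 + x.g := by
        apply lt_of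
        push_cast
        have : ((x.b0 : ℝ) + x.g) * x.μ = x.b0 * x.μ + x.g * x.μ := by ring
        rw [this, e3, e2]
        linarith
      refine ⟨h3, h4, by omega, ?_⟩
      intro β hβ hβa hav
      have := (hAVA x hx a ha β hβ).2.2.2.2.1 hβa.le hav
      omega
    · intro h
      have h1 : (x.B : ℝ) + 2 * x.n0 < 2 * a := by exact_mod_cast h
      have h2 : (x.B : ℝ) / 2 * x.μ + x.n0 * x.μ ≤ (a : ℝ) * x.μ := by
        have : (x.B : ℝ) / 2 + x.n0 ≤ (a : ℝ) := by linarith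
        calc (x.B : ℝ) / 2 * x.μ + x.n0 * x.μ = ((x.B : ℝ) / 2 + x.n0) * x.μ := by ring
          _ ≤ _ := mul_le_mul_of_nonneg_right this hμ.le
      rw [e1] at h2
      have h3 : x.b0 + x.K + 1 < a := by
        apply lt_of
        push_cast
        have : ((x.b0 : ℝ) + x.K + 1) * x.μ = x.b0 * x.μ + x.K * x.μ + x.μ := by ring
        rw [this, e3]
        linarith
      have h4 : x.b1 < a + x.g + 1 := by
        apply lt_of
        push_cast
        have : ((a : ℝ) + x.g + 1) * x.μ = a * x.μ + x.g * x.μ + x.μ := by ring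
        rw [this, e4, e2]
        linarith
      refine ⟨h3, h4, by omega, ?_⟩
      intro β hβ hβa hav
      have := (hAVA x hx a ha β hβ).2.2.2.1 hβa.le hav
      omega
    · intro h
      obtain ⟨_, h1, h2⟩ := Finset.mem_filter.mp h
      have h1' : (x.B : ℝ) ≤ 2 * a + 2 * x.n0 := by exact_mod_cast h1
      have h2' : 2 * (a : ℝ) ≤ x.B + 2 * x.n0 := by exact_mod_cast h2
      have h3 : (x.B : ℝ) / 2 * x.μ - x.n0 * x.μ ≤ (a : ℝ) * x.μ := by
        have : (x.B : ℝ) / 2 - x.n0 ≤ (a : ℝ) := by linarith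
        calc (x.B : ℝ) / 2 * x.μ - x.n0 * x.μ = ((x.B : ℝ) / 2 - x.n0) * x.μ := by ring
          _ ≤ _ := mul_le_mul_of_nonneg_right this hμ.le
      have h4 : (a : ℝ) * x.μ ≤ (x.B : ℝ) / 2 * x.μ + x.n0 * x.μ := by
        have : (a : ℝ) ≤ (x.B : ℝ) / 2 + x.n0 := by linarith
        calc (a : ℝ) * x.μ ≤ ((x.B : ℝ) / 2 + x.n0) * x.μ := mul_le_mul_of_nonneg_right this hμ.le
          _ = _ := by ring
      rw [e1] at h3 h4
      have h5 : x.b0 < a := by
        apply lt_of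
        rw [e3]
        linarith
      refine ⟨h5.le, ?_⟩
      apply lt_of
      rw [e4]
      linarith

end Pool.Agent.H68.HX
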